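import Pool.Agent.H.MP_c12967_pr.F

set_option autoImplicit false

namespace Pool.Agent.H.MP_240aa8_pr

open Pool.Agent.H.MP_341645_pr

variable {α : Type}

def CP : List α → Prop
  | [] => True
  | a :: y => Pr (a :: y ++ [a])

lemma Pr_snoc (x : List α) (a c : α) : Pr (x ++ [a, c]) ↔ Pr (x ++ [a]) ∧ a ≠ c := by
  induction x with
  | nil => simp [Pr]
  | cons d x ih =>
    rcases x with _ | ⟨e, x⟩
    · simp [Pr]
    · simp only [List.cons_append, Pr] at ih ⊢
      rw [ih, and_assoc]

lemma CP_rot (a : α) (y : List α) : CP (y ++ [a]) ↔ CP (a :: y) := by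
  rcases y with _ | ⟨c, y⟩
  · rfl
  · have := Pr_snoc (c :: y) a c
    simp only [List.cons_append, CP, Pr, List.append_assoc, List.nil_append] at this ⊢
    rw [this, and_comm]

lemma Pr_map (σ : Equiv.Perm α) (x : List α) : Pr (x.map σ) ↔ Pr x := by
  induction x with
  | nil => rfl
  | cons d x ih =>
    rcases x with _ | ⟨e, x⟩
    · rfl
    · simp only [List.map_cons, Pr] at ih ⊢
      rw [ih, σ.injective.ne_iff]

lemma D_map (σ : α → α) (f : List α → ℝ) (x : List α) : D f (x.map σ) = D (fun w => f (w.map σ)) x := by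
  induction x generalizing f with
  | nil => rfl
  | cons d x ih => simp only [List.map_cons, D, ih]

open Classical in
noncomputable def Nn : ℕ → List α → ℝ
  | 0, _ => 1
  | n + 1, x => if CP x then D (Nn n) x else 0

lemma Nn_nonneg (n : ℕ) (x : List α) : 0 ≤ Nn n x := by
  induction n generalizing x with
  | zero => exact zero_le_one
  | succ n ih =>
    rw [Nn]; split_ifs
    exacts [D_nonneg ih _, le_rfl]

open Classical in
lemma Nn_rot (n : ℕ) (a : α) (y : List α) : Nn n (y ++ [a]) = Nn n (a :: y) := by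
  induction n generalizing y with
  | zero => rfl
  | succ n ih => 
    rw [Nn, Nn]
    refine if_congr (CP_rot a y) ?_ rfl
    simp only [D_append, D, ih, List.append_nil, add_zero]
    rw [add_comm]

open Classical in
lemma Nn_map (σ : Equiv.Perm α) (n : ℕ) (x : List α) : Nn n (x.map σ) = Nn n x := by
  induction n generalizing x with
  | zero => rfl
  | succ n ih =>
    have : CP (x.map σ) ↔ CP x := by
      rcases x with _ | ⟨a, x⟩
      · rfl
      · simpa [CP] using Pr_map σ (a :: x ++ [a])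
    rw [Nn, Nn]
    exact if_congr this (by simp only [D_map, ih]) rfl

lemma Nn_np (n : ℕ) (x : List α) (h : ¬ Pr x) : Nn (n + 1) x = 0 := by
  rcases x with _ | ⟨a, x⟩
  · exact absurd trivial h
  · exact if_neg fun e => h (Pr_append e).1

lemma Nn_rec [DecidableEq α] (n : ℕ) (x : List α) (h : Pr x → CP x) :
    Nn (n + 2) x = D (Nn (n + 1)) x - 2 * K (Nn (n + 1)) x := by
  by_cases hx : Pr x
  · rw [K_pr _ hx, Nn, if_pos (h hx)]; ring
  · rw [Nn_np _ _ hx, D_K (Nn_np n) hx]; ring

lemma marg4 (n : ℕ) : ∃ c : ℝ, 0 < c ∧ ∀ z : List (Fin (2 + 2)), z.length = n + 1 →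
    ∑ a, Nn (n + 1) (a :: z) = c * WH z := by
  induction n with
  | zero =>
    refine ⟨24, by norm_num, fun z hz => ?_⟩
    obtain ⟨d, rfl⟩ := List.length_eq_one_iff.1 hz
    fin_cases d <;> simp [Nn, CP, Pr, D, WH, Hh, Fin.sum_univ_succ] <;> norm_num
  | succ n ih =>
    obtain ⟨k, k0, ih⟩ := ih
    refine ⟨k * ((n + 2) * 2 + 2), by positivity, fun z hz => ?_⟩
    by_cases hp : Pr z
    swap
    · rw [WH_np _ hp, mul_zero]
      exact Finset.sum_eq_zero fun a _ => Nn_np _ _ fun e => hp (Pr_tail e)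
    obtain ⟨y, c, rfl⟩ := (List.eq_nil_or_concat' z).resolve_left (by rintro rfl; simp at hz)
    obtain ⟨d, y, rfl⟩ := List.exists_cons_of_length_eq_add_one (l := y) (n := n) (by simpa using hz)
    have hy : y.length = n := by simpa using hz
    have h1 : ∀ a, Nn (n + 2) (a :: (d :: y ++ [c])) = _ := fun a =>
      (Nn_rot _ c (a :: d :: y)).trans (Nn_rec n _ fun e => ⟨e.1, e.2.1, hp⟩)
    have h2 : ∑ a, K (Nn (n + 1)) (c :: a :: d :: y) = 2 * Nn (n + 1) (c :: d :: y) := by
      have := K_sum (Nn (n + 1)) c [] (d :: y) trivial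
      rw [K_sum' _ _ _ (Pr_append hp).1] at this
      exact this.trans (two_mul _).symm
    have h3 : ∑ a, D (Nn (n + 1)) (c :: a :: d :: y) = 4 * Nn (n + 1) (c :: d :: y) + k * D WH (d :: y ++ [c]) := by
      have : ∀ a, D (Nn (n + 1)) (c :: a :: d :: y) = Nn (n + 1) (a :: d :: y) + (Nn (n + 1) (c :: d :: y)
        + D (fun w => Nn (n + 1) (c :: a :: w)) (d :: y)) := fun a => rfl
      simp only [this, Finset.sum_add_distrib, D_sum]
      rw [ih _ (by simp [hy]), D_congr (g := fun w => k * WH (w ++ [c])) fun w hw => by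
        rw [← ih _ (by simpa [hy] using hw)]
        exact Finset.sum_congr rfl fun a _ => (Nn_rot _ c (a :: w)).symm, D_mul, D_append]
      simp [D]; ring
    simp only [h1, Finset.sum_sub_distrib, ← Finset.mul_sum, h2, h3]
    rw [WH_D _ (by simp) hp, hz]
    push_cast; ring

lemma marg3 (n : ℕ) : ∃ c : ℝ, 0 < c ∧ ∀ z : List (Fin (1 + 2)), z.length = n + 1 →
    ∑ a, ∑ b, Nn (n + 2) (a :: b :: z) = c * WH z := by
  induction n with
  | zero =>
    refine ⟨36, by norm_num, fun z hz => ?_⟩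
    obtain ⟨d, rfl⟩ := List.length_eq_one_iff.1 hz
    fin_cases d <;> simp [Nn, CP, Pr, D, WH, Hh, Fin.sum_univ_succ] <;> norm_num
  | succ n ih =>
    obtain ⟨k, k0, ih⟩ := ih
    refine ⟨k * ((n + 2) * 1 + 2), by positivity, fun z hz => ?_⟩
    by_cases hp : Pr z
    swap
    · rw [WH_np _ hp, mul_zero]
      exact Finset.sum_eq_zero fun a _ => Finset.sum_eq_zero fun b _ =>
        Nn_np _ _ fun e => hp (Pr_tail (Pr_tail e))
    obtain ⟨y, c, rfl⟩ := (List.eq_nil_or_concat' z).resolve_left (by rintro rfl; simp at hz)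
    obtain ⟨d, y, rfl⟩ := List.exists_cons_of_length_eq_add_one (l := y) (n := n) (by simpa using hz)
    have hy : y.length = n := by simpa using hz
    have h1 : ∀ a b, Nn (n + 3) (a :: b :: (d :: y ++ [c])) = _ := fun a b =>
      (Nn_rot _ c (a :: b :: d :: y)).trans (Nn_rec (n + 1) _ fun e => ⟨e.1, e.2.1, e.2.2.1, hp⟩)
    have h2 : ∑ a, ∑ b, K (Nn (n + 2)) (c :: a :: b :: d :: y) = 3 * ∑ a, Nn (n + 2) (c :: a :: d :: y) := by
      have : ∀ a b, K (Nn (n + 2)) (c :: a :: b :: d :: y) = (if c = a then Nn (n + 2) (a :: b :: d :: y) else 0)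
        + ((if a = b then Nn (n + 2) (c :: b :: d :: y) else 0)
          + K (fun w => Nn (n + 2) (c :: a :: w)) (b :: d :: y)) := fun a b => rfl
      simp only [this, Finset.sum_add_distrib, K_sum' _ _ _ (Pr_append hp).1]
      rw [Finset.sum_comm]
      simp; ring
    have h3 : ∑ a, ∑ b, D (Nn (n + 2)) (c :: a :: b :: d :: y)
        = 6 * ∑ a, Nn (n + 2) (c :: a :: d :: y) + k * D WH (d :: y ++ [c]) := by
      have : ∀ a b, D (Nn (n + 2)) (c :: a :: b :: d :: y) = Nn (n + 2) (a :: b :: d :: y)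
        + (Nn (n + 2) (c :: b :: d :: y) + (Nn (n + 2) (c :: a :: d :: y)
          + D (fun w => Nn (n + 2) (c :: a :: b :: w)) (d :: y))) := fun a b => rfl
      simp only [this, Finset.sum_add_distrib, D_sum]
      rw [ih _ (by simp [hy]), D_congr (g := fun w => k * WH (w ++ [c])) fun w hw => by
        rw [← ih _ (by simpa [hy] using hw)]
        exact Finset.sum_congr rfl fun a _ => Finset.sum_congr rfl fun b _ => (Nn_rot _ c (a :: b :: w)).symm,
        D_mul, D_append]
      simp [D, ← Finset.mul_sum]; ring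
    simp only [h1, Finset.sum_sub_distrib, ← Finset.mul_sum, h2, h3]
    rw [WH_D _ (by simp) hp, hz]
    push_cast; ring

end Pool.Agent.H.MP_240aa8_pr
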