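import Mathlib

set_option autoImplicit false

namespace Pool.Agent.H.MP_240aa8_pr

variable {C : Type}

theorem exists_fix {β : Type} [Inhabited β] (Φ : (List C → β) → List C → β)
    (h : ∀ f g w, (∀ v : List C, v.length < w.length → f v = g v) → Φ f w = Φ g w) :
    ∃ f : List C → β, ∀ w, f w = Φ f w := by
  let fx : ℕ → List C → β := fun n => Nat.rec (fun _ => default) (fun _ f => Φ f) n
  have key : ∀ n m (w : List C), w.length < n → w.length < m → fx n w = fx m w := by
    intro n
    induction n with
    | zero => intro m w h1; omega
    | succ n ih =>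
      intro m w h1 h2
      obtain ⟨m, rfl⟩ : ∃ k, m = k + 1 := ⟨m - 1, by omega⟩
      exact h _ _ _ fun v hv => ih m v (by omega) (by omega)
  exact ⟨fun w => fx (w.length + 1) w, fun w => h _ _ _ fun v hv => key _ (v.length + 1) _ hv (by omega)⟩

def sp : List C → (List C → C → List C → ℝ) → ℝ
  | [], _ => 0
  | c :: v, f => f [] c v + sp v (fun u d w => f (c :: u) d w)

@[simp] lemma sp_nil (f : List C → C → List C → ℝ) : sp [] f = 0 := rfl

lemma sp_congr {w : List C} {f g : List C → C → List C → ℝ}
    (h : ∀ u c v, w = u ++ c :: v → f u c v = g u c v) : sp w f = sp w g := by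
  induction w generalizing f g with
  | nil => rfl
  | cons c w ih => rw [sp, sp, h [] c w rfl, ih fun u d v e => h _ _ _ (by rw [e]; rfl)]

lemma sp_len {w : List C} {f g : List C → C → List C → ℝ}
    (h : ∀ u c v, w.length = u.length + v.length + 1 → f u c v = g u c v) : sp w f = sp w g :=
  sp_congr fun u c v e => h u c v (by simp [e, add_assoc])

lemma sp_add (w : List C) (f g : List C → C → List C → ℝ) :
    sp w (fun u c v => f u c v + g u c v) = sp w f + sp w g := by
  induction w generalizing f g with
  | nil => simp
  | cons c w ih => simp only [sp, ih]; ring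

lemma sp_mul (w : List C) (r : ℝ) (f : List C → C → List C → ℝ) :
    sp w (fun u c v => r * f u c v) = r * sp w f := by
  induction w generalizing f with
  | nil => simp
  | cons c w ih => simp only [sp, ih]; ring

lemma sp_mul' (w : List C) (r : ℝ) (f : List C → C → List C → ℝ) :
    sp w (fun u c v => f u c v * r) = sp w f * r := by
  simp only [mul_comm _ r, sp_mul]

lemma sp_sub (w : List C) (f g : List C → C → List C → ℝ) :
    sp w (fun u c v => f u c v - g u c v) = sp w f - sp w g := by
  induction w generalizing f g with
  | nil => simp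
  | cons c w ih => simp only [sp, ih]; ring

lemma sp_zero {w : List C} {f : List C → C → List C → ℝ} (h : ∀ u c v, w = u ++ c :: v → f u c v = 0) :
    sp w f = 0 := by
  rw [sp_congr (g := fun u c v => 0 * f u c v) fun u c v e => by rw [h u c v e, zero_mul], sp_mul, zero_mul]

lemma sp_sum {ι : Type} (s : Finset ι) (w : List C) (f : ι → List C → C → List C → ℝ) :
    ∑ a ∈ s, sp w (f a) = sp w (fun u c v => ∑ a ∈ s, f a u c v) := by
  induction w generalizing f with
  | nil => simp
  | cons c w ih => simp only [sp, Finset.sum_add_distrib, ih]

lemma sp_nonneg {w : List C} {f : List C → C → List C → ℝ} (h : ∀ u c v, w = u ++ c :: v → 0 ≤ f u c v) :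
    0 ≤ sp w f := by
  induction w generalizing f with
  | nil => exact le_rfl
  | cons c w ih => exact add_nonneg (h [] c w rfl) (ih fun u d v e => h _ _ _ (by rw [e]; rfl))

lemma sp_append (x y : List C) (f : List C → C → List C → ℝ) :
    sp (x ++ y) f = sp x (fun u c v => f u c (v ++ y)) + sp y (fun u c v => f (x ++ u) c v) := by
  induction x generalizing f with
  | nil => simp
  | cons c x ih => simp only [List.cons_append, sp, ih, add_assoc]

lemma sp_mid (x y : List C) (a : C) (f : List C → C → List C → ℝ) :
    sp (x ++ a :: y) f = sp x (fun u c v => f u c (v ++ a :: y)) + f x a y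
      + sp y (fun u c v => f (x ++ a :: u) c v) := by
  rw [sp_append, sp, List.append_nil, add_assoc]

lemma sp_assoc (w : List C) (f : List C → C → List C → C → List C → ℝ) :
    sp w (fun r d z => sp r (fun u c v => f u c v d z)) = sp w (fun u c r => sp r (fun v d z => f u c v d z)) := by
  induction w generalizing f with
  | nil => rfl
  | cons c w ih => simp only [sp, sp_add, ih, zero_add]

lemma sp_comm (x y : List C) (f : List C → C → List C → List C → C → List C → ℝ) :
    sp x (fun u c v => sp y (fun u' c' v' => f u c v u' c' v'))
      = sp y (fun u' c' v' => sp x (fun u c v => f u c v u' c' v')) := by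
  induction x generalizing f with
  | nil => exact (sp_zero fun _ _ _ _ => rfl).symm
  | cons c x ih => simp only [sp, sp_add, ih]

lemma sp_map (σ : C → C) (w : List C) (f : List C → C → List C → ℝ) :
    sp (w.map σ) f = sp w (fun u c v => f (u.map σ) (σ c) (v.map σ)) := by
  induction w generalizing f with
  | nil => rfl
  | cons c w ih => simp only [List.map_cons, sp, ih, List.map_nil]

variable [DecidableEq C]

def I (a : Option C) (c : C) : ℝ := if a = some c then 0 else 1

@[simp] lemma I_none (c : C) : I none c = 1 := rfl
@[simp] lemma I_self (c : C) : I (some c) c = 0 := if_pos rfl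
lemma I_symm (c d : C) : I (some c) d = I (some d) c := by simp only [I, Option.some.injEq, eq_comm]
lemma I_cases (a : Option C) (c : C) : I a c = 0 ∨ I a c = 1 := by unfold I; split_ifs <;> simp
lemma I_nonneg (a : Option C) (c : C) : 0 ≤ I a c := by unfold I; split_ifs <;> simp
lemma I_ne {c d : C} (h : c ≠ d) : I (some c) d = 1 := if_neg (by simpa using h)

variable (t : ℝ)

lemma exF : ∃ f : List C → Option C → Option C → ℝ, ∀ w, f w = fun a b => if w = [] then 1 else
    sp w (fun u c v => t ^ u.length * I a c * I b c * f u a c * f v c b) / (1 - t ^ w.length) :=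
  exists_fix (β := Option C → Option C → ℝ) (fun f w a b => if w = [] then 1 else
    sp w (fun u c v => t ^ u.length * I a c * I b c * f u a c * f v c b) / (1 - t ^ w.length))
    fun f g w h => by
      funext a b
      congr 2
      exact sp_len fun u c v e => by rw [h u (by omega), h v (by omega)]

noncomputable def F (a : Option C) (w : List C) (b : Option C) : ℝ := (exF t).choose w a b

lemma exL (d : Option C) (w : List C) : ∃ f : List C → Option C → ℝ, ∀ u, f u = fun c =>
    (F t d w none * F t none u c + sp u (fun x e y => t ^ (w.length + 1 + x.length) * I d e * I c e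
      * f x e * F t e y c)) / (1 - t ^ (w.length + u.length + 1)) :=
  exists_fix (β := Option C → ℝ) (fun f u c => (F t d w none * F t none u c + sp u (fun x e y =>
    t ^ (w.length + 1 + x.length) * I d e * I c e * f x e * F t e y c)) / (1 - t ^ (w.length + u.length + 1)))
    fun f g w h => by
      funext c
      congr 2
      exact sp_len fun u c v e => by rw [h u (by omega)]

noncomputable def EL (d : Option C) (w u : List C) (c : Option C) : ℝ := (exL t d w).choose u c

lemma exR (u : List C) (c : Option C) : ∃ f : List C → Option C → ℝ, ∀ w, f w = fun d =>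
    (t ^ w.length * F t d w none * F t none u c + sp w (fun x e y => t ^ x.length * I d e * I c e
      * F t d x e * f y e)) / (1 - t ^ (w.length + u.length + 1)) :=
  exists_fix (β := Option C → ℝ) (fun f w d => (t ^ w.length * F t d w none * F t none u c + sp w (fun x e y =>
    t ^ x.length * I d e * I c e * F t d x e * f y e)) / (1 - t ^ (w.length + u.length + 1)))
    fun f g w h => by
      funext c
      congr 2
      exact sp_len fun u c v e => by rw [h v (by omega)]

noncomputable def ER (d : Option C) (w u : List C) (c : Option C) : ℝ := (exR t u c).choose w d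

def J (a : Option C) : Option C → ℝ
  | none => 1
  | some c => I a c

lemma exC (g b : Option C) : ∃ f : List C → Option C → ℝ, ∀ w, f w = fun a =>
    J a b * t ^ w.length * F t a w b + sp w (fun x e y => t ^ x.length * I a e * I g e * F t a x e * f y e) :=
  exists_fix (β := Option C → ℝ) (fun f w a => J a b * t ^ w.length * F t a w b
    + sp w (fun x e y => t ^ x.length * I a e * I g e * F t a x e * f y e))
    fun f g w h => by
      funext c
      congr 1
      exact sp_len fun u c v e => by rw [h v (by omega)]

noncomputable def Ch (g a : Option C) (w : List C) (b : Option C) : ℝ := (exC t g b).choose w a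

lemma Ch_rec (g a : Option C) (w : List C) (b : Option C) : Ch t g a w b = J a b * t ^ w.length * F t a w b
    + sp w (fun x e y => t ^ x.length * I a e * I g e * F t a x e * Ch t g e y b) :=
  congrFun ((exC t g b).choose_spec w) a

@[simp] lemma F_nil (a b : Option C) : F t a [] b = 1 := by
  rw [F, (exF t).choose_spec]; simp

variable {t} (h0 : 0 < t) (h1 : t < 1)
include h0 h1

omit [DecidableEq C] in
lemma pw {n : ℕ} (h : n ≠ 0) : 0 < 1 - t ^ n := sub_pos.2 (pow_lt_one₀ h0.le h1 h)

lemma F_rec (a : Option C) (w : List C) (b : Option C) : (1 - t ^ w.length) * F t a w b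
    = sp w (fun u c v => t ^ u.length * I a c * I b c * F t a u c * F t c v b) := by
  by_cases h : w = []
  · simp [h]
  · rw [F, (exF t).choose_spec]
    simp only [if_neg h]
    rw [mul_div_cancel₀ _ (pw h0 h1 (by simpa using h)).ne']; rfl

lemma EL_rec (d : Option C) (w u : List C) (c : Option C) : (1 - t ^ (w.length + u.length + 1)) * EL t d w u c
    = F t d w none * F t none u c
      + sp u (fun x e y => t ^ (w.length + 1 + x.length) * I d e * I c e * EL t d w x e * F t e y c) := by
  rw [EL, (exL t d w).choose_spec, mul_div_cancel₀ _ (pw h0 h1 (by simp)).ne']; rfl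

lemma ER_rec (d : Option C) (w u : List C) (c : Option C) : (1 - t ^ (w.length + u.length + 1)) * ER t d w u c
    = t ^ w.length * F t d w none * F t none u c
      + sp w (fun x e y => t ^ x.length * I d e * I c e * F t d x e * ER t e y u c) := by
  rw [ER, (exR t u c).choose_spec, mul_div_cancel₀ _ (pw h0 h1 (by simp)).ne']; rfl

lemma F_nonneg (n : ℕ) : ∀ (a : Option C) (w : List C) (b : Option C), w.length = n → 0 ≤ F t a w b := by
  induction n using Nat.strong_induction_on with
  | _ n ih =>
    intro a w b hn
    rcases n with _ | n
    · rw [List.length_eq_zero_iff.1 hn]; simp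
    refine nonneg_of_mul_nonneg_right ?_ (pw h0 h1 (n := w.length) (by omega))
    rw [F_rec h0 h1]
    refine sp_nonneg fun u c v e => ?_
    have := ih _ (by simp [e] at hn; omega) a u c rfl
    have := ih _ (by simp [e] at hn; omega) c v b rfl
    have := I_nonneg a c
    have := I_nonneg b c
    positivity

lemma Ch_nonneg (n : ℕ) (g b : Option C) : ∀ (a : Option C) (w : List C), w.length = n → 0 ≤ Ch t g a w b := by
  induction n using Nat.strong_induction_on with
  | _ n ih =>
    intro a w hn
    rw [Ch_rec]
    have : 0 ≤ J a b := by cases b; exacts [zero_le_one, I_nonneg _ _]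
    have := F_nonneg h0 h1 _ a w b rfl
    refine add_nonneg (by positivity) (sp_nonneg fun u c v e => ?_)
    have := F_nonneg h0 h1 _ a u c rfl
    have := ih _ (by simp [e] at hn; omega) c v rfl
    have := I_nonneg a c
    have := I_nonneg g c
    positivity

lemma F_hd (n : ℕ) (c : C) : ∀ (v : List C) (b : Option C), v.length = n → F t c (c :: v) b = 0 := by
  induction n using Nat.strong_induction_on with
  | _ n ih =>
    intro v b hn
    refine (mul_eq_zero.1 ?_).resolve_left (pw h0 h1 (n := (c :: v).length) (by simp)).ne'
    rw [F_rec h0 h1, sp, sp_zero fun u d w e => by rw [ih _ (by simp [e] at hn; omega) u d rfl]; simp]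
    simp

lemma F_last (n : ℕ) (c : C) : ∀ (v : List C) (a : Option C), v.length = n → F t a (v ++ [c]) c = 0 := by
  induction n using Nat.strong_induction_on with
  | _ n ih =>
    intro v a hn
    refine (mul_eq_zero.1 ?_).resolve_left (pw h0 h1 (n := (v ++ [c]).length) (by simp)).ne'
    rw [F_rec h0 h1, sp_mid, sp_zero fun u d w e => by rw [ih _ (by simp [e] at hn; omega) w d rfl]; simp]
    simp

lemma F_mid (n : ℕ) (c : C) : ∀ (u v : List C) (a b : Option C), u.length + v.length = n →
    F t a (u ++ c :: c :: v) b = 0 := by
  induction n using Nat.strong_induction_on with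
  | _ n ih =>
    intro u v a b hn
    refine (mul_eq_zero.1 ?_).resolve_left (pw h0 h1 (n := (u ++ c :: c :: v).length) (by simp)).ne'
    rw [F_rec h0 h1, sp_mid, sp, sp_zero fun x d w e => by rw [ih _ (by simp [e] at hn; omega) w v d b rfl]; simp,
      sp_zero fun x d w e => by rw [ih _ (by simp [e] at hn; omega) u x a d rfl]; simp,
      F_hd h0 h1 _ c v b rfl, F_last h0 h1 _ c u a rfl]
    simp

lemma I_map (σ : Equiv.Perm C) (a : Option C) (c : C) : I (a.map σ) (σ c) = I a c := by
  cases a <;> simp [I]

lemma F_map (σ : Equiv.Perm C) (n : ℕ) : ∀ (a : Option C) (w : List C) (b : Option C), w.length = n →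
    F t (a.map σ) (w.map σ) (b.map σ) = F t a w b := by
  induction n using Nat.strong_induction_on with
  | _ n ih =>
    intro a w b hn
    rcases n with _ | n
    · rw [List.length_eq_zero_iff.1 hn]; simp
    refine mul_left_cancel₀ (pw h0 h1 (n := w.length) (by omega)).ne' ?_
    rw [F_rec h0 h1, ← List.length_map σ, F_rec h0 h1, sp_map]
    refine sp_len fun u c v e => ?_
    have e1 := ih _ (by omega) a u c rfl
    have e2 := ih _ (by omega) c v b rfl
    simp only [Option.map_some] at e1 e2
    rw [e1, e2, I_map h0 h1, I_map h0 h1, List.length_map]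

lemma Ch_map (σ : Equiv.Perm C) (n : ℕ) (g b : Option C) : ∀ (a : Option C) (w : List C), w.length = n →
    Ch t (g.map σ) (a.map σ) (w.map σ) (b.map σ) = Ch t g a w b := by
  induction n using Nat.strong_induction_on with
  | _ n ih =>
    intro a w hn
    have : J (a.map σ) (b.map σ) = J a b := by cases b; exacts [rfl, I_map h0 h1 σ a _]
    rw [Ch_rec, Ch_rec t g a, F_map h0 h1 σ _ a w b rfl, this, List.length_map, sp_map]
    congr 1
    refine sp_len fun u c v e => ?_
    have e1 := F_map h0 h1 σ _ a u c rfl
    have e2 := ih _ (by omega) c v rfl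
    simp only [Option.map_some] at e1 e2
    rw [e1, e2, I_map h0 h1, I_map h0 h1, List.length_map]

end Pool.Agent.H.MP_240aa8_pr
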