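import Pool.Agent.H.MP_240aa8_pr.S

set_option autoImplicit false

namespace Pool.Agent.H.MP_240aa8_pr

variable {C : Type} [DecidableEq C] {t : ℝ} (h0 : 0 < t) (h1 : t < 1)
include h0 h1

lemma Xa (a : C) (n : ℕ) : ∀ (d : Option C) (w u : List C) (c : Option C), w.length + u.length = n →
    I d a = 1 → I c a = 1 → F t d w none * F t none u c - F t d w a * F t a u c
      = sp w (fun x e y => (1 - I a e) * F t d x a * EL t a y u c)
        + sp u (fun x e y => (1 - I a e) * t ^ x.length * ER t d w x a * F t a y c) := by
  induction n using Nat.strong_induction_on with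
  | _ n ih =>
    intro d w u c hn hd hc
    rcases n with _ | n
    · rw [List.length_eq_zero_iff.1 (show w.length = 0 by omega),
        List.length_eq_zero_iff.1 (show u.length = 0 by omega)]
      simp
    let A1 : List C → C → List C → C → List C → ℝ := fun x e x' e' y' =>
      t ^ x.length * I d e * I a e * F t d x e * ((1 - I a e') * F t e x' a * EL t a y' u c)
    let A2 : List C → C → List C → List C → C → List C → ℝ := fun x e y x' e' y' =>
      t ^ x.length * I d e * I a e * F t d x e * ((1 - I a e') * t ^ x'.length * ER t e y x' a * F t a y' c)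
    let A3 : List C → C → List C → ℝ := fun x e y =>
      (1 - I a e) * t ^ x.length * F t d x a * F t a y none * F t none u c
    let B1 : List C → C → List C → List C → C → List C → ℝ := fun x e y x' e' y' =>
      t ^ w.length * t ^ x.length * I c e * I a e * F t e y c * ((1 - I a e') * F t d x' a * EL t a y' x e)
    let B2 : List C → C → List C → C → List C → ℝ := fun x' e' y' e y =>
      t ^ w.length * t ^ (x'.length + y'.length + 1) * I c e * I a e * F t e y c
        * ((1 - I a e') * t ^ x'.length * ER t d w x' a * F t a y' e)
    let B3 : List C → C → List C → ℝ := fun x e y =>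
      (1 - I a e) * t ^ w.length * t ^ x.length * F t d w none * F t none x a * F t a y c
    have e1 : (1 - t ^ w.length) * F t d w none * F t none u c - (1 - t ^ w.length) * F t d w a * F t a u c
        = sp w (fun x e y => sp y (A1 x e)) + sp w (fun x e y => sp u (A2 x e y)) + sp w A3 := by
      rw [F_rec h0 h1, F_rec h0 h1, ← sp_mul', ← sp_mul', ← sp_sub, ← sp_add, ← sp_add]
      refine sp_len fun x e y l => ?_
      by_cases h : a = e
      · subst h; simp [A1, A2, A3, hd, sp_zero]
      · have := ih _ (by omega) e y u c rfl (I_ne (Ne.symm h)) hc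
        simp only [A1, A2, A3, sp_mul, I_ne h, I_none]
        linear_combination (t ^ x.length * I d e * F t d x e) * this
    have e2 : t ^ w.length * F t d w none * ((1 - t ^ u.length) * F t none u c)
        - t ^ w.length * F t d w a * ((1 - t ^ u.length) * F t a u c)
        = sp u (fun x e y => sp w (B1 x e y)) + sp u (fun x e y => sp x (fun x' e' y' => B2 x' e' y' e y))
          + sp u B3 := by
      rw [F_rec h0 h1, F_rec h0 h1, ← sp_mul, ← sp_mul, ← sp_sub, ← sp_add, ← sp_add]
      refine sp_len fun x e y l => ?_
      by_cases h : a = e
      · subst h; simp [B1, B2, B3, hc, sp_zero]; ring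
      · have := ih _ (by omega) d w x e rfl hd (I_ne (Ne.symm h))
        rw [sp_len (w := x) (g := fun x' e' y' => t ^ w.length * t ^ x.length * I c e * I a e * F t e y c
          * ((1 - I a e') * t ^ x'.length * ER t d w x' a * F t a y' e)) fun x' e' y' l' => by simp only [B2, l']]
        simp only [B1, B3, sp_mul, I_ne h, I_none]
        linear_combination (t ^ w.length * t ^ x.length * I c e * F t e y c) * this
    have e3 : (1 - t ^ (w.length + u.length)) * sp w (fun x e y => (1 - I a e) * F t d x a * EL t a y u c)
        = sp w (fun x e y => sp y (A1 x e)) + sp w A3 + sp u (fun x e y => sp w (B1 x e y)) := by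
      rw [← sp_assoc, ← sp_comm, ← sp_add, ← sp_add, ← sp_mul]
      refine sp_len fun x e y l => ?_
      have r1 := F_rec h0 h1 d x a
      have r2 := EL_rec h0 h1 a y u c
      rw [sp_len (w := x) (g := fun x' e' y' => (1 - I a e) * EL t a y u c
          * (t ^ x'.length * I d e' * I a e' * F t d x' e' * F t e' y' a)) fun x' e' y' l' => by ring,
        sp_len (w := u) (g := fun x' e' y' => (1 - I a e) * t ^ x.length * F t d x a
          * (t ^ (y.length + 1 + x'.length) * I a e' * I c e' * EL t a y x' e' * F t e' y' c))
          fun x' e' y' l' => by simp only [B1, l]; ring, sp_mul, sp_mul, ← r1, ← sub_eq_iff_eq_add'.2 r2, l]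
      simp only [A3]; ring
    have e4 : (1 - t ^ (w.length + u.length))
        * sp u (fun x e y => (1 - I a e) * t ^ x.length * ER t d w x a * F t a y c)
        = sp w (fun x e y => sp u (A2 x e y)) + sp u (fun x e y => sp x (fun x' e' y' => B2 x' e' y' e y))
          + sp u B3 := by
      rw [sp_assoc, sp_comm, ← sp_add, ← sp_add, ← sp_mul]
      refine sp_len fun x e y l => ?_
      have r1 := F_rec h0 h1 a y c
      have r2 := ER_rec h0 h1 d w x a
      rw [sp_len (w := y) (g := fun x' e' y' => (1 - I a e) * t ^ (w.length + x.length + 1) * t ^ x.length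
          * ER t d w x a * (t ^ x'.length * I a e' * I c e' * F t a x' e' * F t e' y' c))
          fun x' e' y' l' => by simp only [B2]; ring,
        sp_len (w := w) (g := fun x' e' y' => (1 - I a e) * t ^ x.length * F t a y c
          * (t ^ x'.length * I d e' * I a e' * F t d x' e' * ER t e' y' x a))
          fun x' e' y' l' => by ring, sp_mul, sp_mul, ← r1, ← sub_eq_iff_eq_add'.2 r2, l]
      simp only [B3]; ring
    refine mul_left_cancel₀ (pw h0 h1 (n := w.length + u.length) (by omega)).ne' ?_
    rw [mul_add, e3, e4]
    linear_combination e1 + e2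

def O : Option C → ℝ
  | none => 1
  | some _ => 0

omit h0 h1 in
lemma J_I (c : Option C) (e : C) : J e c = I c e := by
  cases c; exacts [rfl, I_symm _ _]

variable [Fintype C]

omit h0 h1 in
lemma sI (f : C → ℝ) (d : C) : ∑ a, f a * I d a = ∑ a, f a - f d := by
  simp [I, Finset.sum_ite, Finset.filter_ne, Finset.filter_eq]

omit h0 h1 in
lemma sD (f : C → ℝ) (e : C) : ∑ a, f a * (1 - I (some a) e) = f e := by
  simp only [mul_sub, mul_one, Finset.sum_sub_distrib, I_symm _ e, sI]; ring

variable (hq : (Fintype.card C : ℝ) = 2 + t + t⁻¹)
include hq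

omit h0 h1 in
lemma sII (d c : Option C) (h : J d c = 1) : ∑ a, I d a * I c a = (t + O d) + (t⁻¹ + O c) := by
  have h1 := fun d : C => sI (fun _ => 1) d
  simp only [one_mul, Finset.sum_const, Finset.card_univ, nsmul_eq_mul, mul_one, hq] at h1
  rcases c with _ | c
  · rcases d with _ | d
    · simp [O, hq]; ring
    · simp [O, h1]; ring
  · rw [sI, show I d c = 1 from h]
    rcases d with _ | d
    · simp [O, hq]; ring
    · simp [O, h1]; ring

lemma Hh (n : ℕ) : ∀ (d : Option C) (w u : List C) (c : Option C), w.length + u.length = n → J d c = 1 →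
    ∑ a, F t d (w ++ a :: u) c = (t + O d) * t ^ w.length * EL t d w u c + (t⁻¹ + O c) * ER t d w u c := by
  induction n using Nat.strong_induction_on with
  | _ n ih =>
    intro d w u c hn hJ
    have s1 : (1 - t ^ (w.length + u.length + 1)) * ∑ a, F t d (w ++ a :: u) c
        = sp w (fun x e y => t ^ x.length * I d e * I c e * F t d x e * ∑ a, F t e (y ++ a :: u) c)
          + t ^ w.length * ∑ a, I d a * I c a * (F t d w a * F t a u c)
          + sp u (fun x e y => t ^ (w.length + 1 + x.length) * I d e * I c e * F t e y c
            * ∑ a, F t d (w ++ a :: x) e) := by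
      simp only [Finset.mul_sum, ← sp_sum, ← Finset.sum_add_distrib]
      refine Finset.sum_congr rfl fun a _ => ?_
      have := F_rec h0 h1 d (w ++ a :: u) c
      rw [sp_mid, show (w ++ a :: u).length = w.length + u.length + 1 by simp [add_assoc]] at this
      rw [this]
      congr 1
      · ring
      · exact sp_len fun x e y _ => by simp only [List.length_append, List.length_cons]; ring
    have s2 : ∑ a, I d a * I c a * (F t d w a * F t a u c)
        = ((t + O d) + (t⁻¹ + O c)) * (F t d w none * F t none u c)
          - sp w (fun x e y => I d e * I c e * F t d x e * EL t e y u c)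
          - sp u (fun x e y => I d e * I c e * t ^ x.length * ER t d w x e * F t e y c) := by
      have : ∀ a, I d a * I c a * (F t d w a * F t a u c) = I d a * I c a * (F t d w none * F t none u c)
          - sp w (fun x e y => I d a * I c a * F t d x a * EL t a y u c * (1 - I a e))
          - sp u (fun x e y => I d a * I c a * t ^ x.length * ER t d w x a * F t a y c * (1 - I a e)) := by
        intro a
        rcases I_cases d a with h | h
        · simp [h, sp_zero]
        rcases I_cases c a with h' | h'
        · simp [h', sp_zero]
        have := Xa h0 h1 a _ d w u c rfl h h'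
        rw [h, h', sp_len (w := w) (g := fun x e y => (1 - I a e) * F t d x a * EL t a y u c) fun _ _ _ _ => by ring,
          sp_len (w := u) (g := fun x e y => (1 - I a e) * t ^ x.length * ER t d w x a * F t a y c)
            fun _ _ _ _ => by ring]
        linear_combination -this
      simp only [this, Finset.sum_sub_distrib, sp_sum, ← Finset.sum_mul (f := fun a => I d a * I c a),
        sII hq d c hJ, sD]
    have s3 : sp w (fun x e y => t ^ x.length * I d e * I c e * F t d x e * ∑ a, F t e (y ++ a :: u) c)
        = t ^ w.length * sp w (fun x e y => I d e * I c e * F t d x e * EL t e y u c)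
          + (t⁻¹ + O c) * sp w (fun x e y => t ^ x.length * I d e * I c e * F t d x e * ER t e y u c) := by
      rw [← sp_mul, ← sp_mul, ← sp_add]
      refine sp_len fun x e y l => ?_
      rcases I_cases c e with h | h
      · simp [h]
      rw [ih _ (by omega) e y u c rfl (by rw [J_I, h]), l]
      simp only [O]; ring
    have s4 : sp u (fun x e y => t ^ (w.length + 1 + x.length) * I d e * I c e * F t e y c
            * ∑ a, F t d (w ++ a :: x) e)
        = (t + O d) * t ^ w.length
            * sp u (fun x e y => t ^ (w.length + 1 + x.length) * I d e * I c e * EL t d w x e * F t e y c)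
          + t ^ w.length * sp u (fun x e y => I d e * I c e * t ^ x.length * ER t d w x e * F t e y c) := by
      rw [← sp_mul, ← sp_mul, ← sp_add]
      refine sp_len fun x e y l => ?_
      rcases I_cases d e with h | h
      · simp [h]
      rw [ih _ (by omega) d w x e rfl h]
      simp only [O]; field_simp; ring
    refine mul_left_cancel₀ (pw h0 h1 (n := w.length + u.length + 1) (by omega)).ne' ?_
    rw [s1, s2, s3, s4]
    linear_combination (-(t + O d) * t ^ w.length) * EL_rec h0 h1 d w u c - (t⁻¹ + O c) * ER_rec h0 h1 d w u c

omit [Fintype C] hq in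
lemma EL_none (w : List C) (n : ℕ) : ∀ (u : List C) (c : Option C), u.length = n →
    (1 - t ^ (w.length + 1)) * EL t none w u c = F t none w none * F t none u c := by
  induction n using Nat.strong_induction_on with
  | _ n ih =>
    intro u c hn
    refine mul_left_cancel₀ (pw h0 h1 (n := w.length + u.length + 1) (by omega)).ne' ?_
    rw [mul_left_comm, EL_rec h0 h1, mul_add, ← sp_mul, sp_len (g := fun x e y => t ^ (w.length + 1) * F t none w none
      * (t ^ x.length * I none e * I c e * F t none x e * F t e y c)) fun x e y l => by
        linear_combination (t ^ (w.length + 1 + x.length) * I none e * I c e * F t e y c) * ih _ (by omega) x e rfl,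
      sp_mul, ← F_rec h0 h1]
    ring

omit [Fintype C] hq in
lemma ER_none (u : List C) (n : ℕ) : ∀ (w : List C) (d : Option C), w.length = n →
    (1 - t ^ (u.length + 1)) * ER t d w u none = F t d w none * F t none u none := by
  induction n using Nat.strong_induction_on with
  | _ n ih =>
    intro w d hn
    refine mul_left_cancel₀ (pw h0 h1 (n := w.length + u.length + 1) (by omega)).ne' ?_
    rw [mul_left_comm, ER_rec h0 h1, mul_add, ← sp_mul, sp_len (g := fun x e y => F t none u none
      * (t ^ x.length * I d e * I none e * F t d x e * F t e y none)) fun x e y l => by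
        linear_combination (t ^ x.length * I d e * I none e * F t d x e) * ih _ (by omega) y e rfl,
      sp_mul, ← F_rec h0 h1]
    ring

lemma line (w u : List C) : (1 - t ^ (w.length + 1)) * (1 - t ^ (u.length + 1)) * ∑ a, F t none (w ++ a :: u) none
    = (1 + t⁻¹) * (1 - t ^ (w.length + u.length + 2)) * (F t none w none * F t none u none) := by
  rw [Hh h0 h1 hq _ none w u none rfl rfl]
  have e1 := EL_none h0 h1 w _ u none rfl
  have e2 := ER_none h0 h1 u _ w none rfl
  have e3 : t * t⁻¹ = 1 := mul_inv_cancel₀ h0.ne'
  simp only [O]
  linear_combination ((t + 1) * t ^ w.length * (1 - t ^ (u.length + 1))) * e1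
    + ((t⁻¹ + 1) * (1 - t ^ (w.length + 1))) * e2
    - (t ^ w.length * (1 - t ^ (u.length + 1)) * (F t none w none * F t none u none)) * e3

end Pool.Agent.H.MP_240aa8_pr
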