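import Pool.Agent.H.MP_240aa8_pr.T

set_option autoImplicit false

namespace Pool.Agent.H.MP_240aa8_pr

variable {C : Type} [DecidableEq C] {t : ℝ} (h0 : 0 < t) (h1 : t < 1)
include h0 h1

lemma F_rec' (a : Option C) (w : List C) (b : Option C) : F t a w b = t ^ w.length * F t a w b
    + sp w (fun u c v => t ^ u.length * I a c * I b c * F t a u c * F t c v b) := by
  rw [← F_rec h0 h1]; ring

lemma Ch1 (n : ℕ) : ∀ (a : Option C) (w : List C), w.length = n → Ch t none a w none = F t a w none := by
  induction n using Nat.strong_induction_on with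
  | _ n ih =>
    intro a w hn
    rw [Ch_rec, F_rec' h0 h1 a w none, ← F_rec h0 h1, sp_len (g := fun u c v => t ^ u.length * I a c * I none c
      * F t a u c * F t c v none) fun x e y l => by rw [ih _ (by omega) e y rfl], ← F_rec h0 h1]
    simp only [J]; ring

lemma Ch2 (g : C) (n : ℕ) : ∀ (a : Option C) (w : List C), w.length = n → I a g = 1 →
    F t a w none - Ch t g a w none = sp w (fun x e y => (1 - I g e) * F t a x g * F t g y none) := by
  induction n using Nat.strong_induction_on with
  | _ n ih =>
    intro a w hn ha
    have e1 : F t a w none - Ch t g a w none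
        = sp w (fun x e y => (1 - I g e) * t ^ x.length * F t a x g * F t g y none)
          + sp w (fun x e r => sp r (fun x' e' y' => t ^ x.length * I a e * I g e * F t a x e
            * ((1 - I g e') * F t e x' g * F t g y' none))) := by
      rw [Ch_rec, ← sp_add]
      have := F_rec' h0 h1 a w none
      simp only [J, one_mul]
      rw [← sub_sub, sub_eq_iff_eq_add'.2 this, ← sp_sub]
      refine sp_len fun x e y l => ?_
      by_cases h : g = e
      · subst h; simp [ha, sp_zero]
      · rw [sp_mul, ← ih _ (by omega) e y rfl (I_ne (Ne.symm h)), I_ne h, I_none]; ring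
    rw [e1, ← sp_assoc, ← sp_add]
    refine sp_len fun x e y l => ?_
    conv_rhs => rw [F_rec' h0 h1 a x g]
    rw [mul_add, add_mul, ← sp_mul, ← sp_mul']
    congr 1
    · ring
    · exact sp_len fun _ _ _ _ => by ring

omit h0 h1 in
lemma ChR (g b : Option C) (n : ℕ) : ∀ (a : Option C) (w : List C), w.length = n → Ch t g a w b
    = J a b * t ^ w.length * F t a w b
      + sp w (fun x e y => I g e * Ch t g a x e * (J e b * t ^ y.length * F t e y b)) := by
  induction n using Nat.strong_induction_on with
  | _ n ih =>
    intro a w hn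
    rw [Ch_rec]
    congr 1
    rw [sp_len (g := fun x e y => t ^ x.length * I a e * I g e * F t a x e * (J e b * t ^ y.length * F t e y b)
      + sp y (fun x' e' y' => t ^ x.length * I a e * I g e * F t a x e
        * (I g e' * Ch t g e x' e' * (J e' b * t ^ y'.length * F t e' y' b)))) fun x e y l => by
          rw [ih _ (by omega) e y rfl, sp_mul, mul_add], sp_add, ← sp_assoc, ← sp_add]
    refine sp_len fun x e y l => ?_
    rw [Ch_rec t g a x e, mul_add, add_mul, ← sp_mul, ← sp_mul']
    congr 1
    · simp only [J]; ring
    · exact sp_len fun _ _ _ _ => by ring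

lemma X2 (a : C) (u : List C) (c : Option C) (hc : I c a = 1) (n : ℕ) : ∀ (d : Option C) (w : List C),
    w.length = n → I d a = 1 → F t d w none * F t none u c - F t d w a * F t a u c
      = sp w (fun x e y => (1 - I a e) * F t d x a * (t ^ (y.length + 1) * EL t a y u c + F t a y none * F t none u c))
        + sp u (fun x e y => (1 - I a e) * t⁻¹ * (ER t d w x a - Ch t a d w none * F t none x a) * F t a y c) := by
  induction n using Nat.strong_induction_on with
  | _ n ih =>
    intro d w hn hd
    let A1 : List C → C → List C → C → List C → ℝ := fun x e x' e' y' =>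
      t ^ x.length * I d e * I a e * F t d x e * ((1 - I a e') * F t e x' a
        * (t ^ (y'.length + 1) * EL t a y' u c + F t a y' none * F t none u c))
    let A2 : List C → C → List C → List C → C → List C → ℝ := fun x e y x' e' y' =>
      t ^ x.length * I d e * I a e * F t d x e
        * ((1 - I a e') * t⁻¹ * (ER t e y x' a - Ch t a e y none * F t none x' a) * F t a y' c)
    let A3 : List C → C → List C → ℝ := fun x e y =>
      (1 - I a e) * t ^ x.length * F t d x a * F t a y none * F t none u c
    have e1 : (1 - t ^ w.length) * F t d w none * F t none u c - (1 - t ^ w.length) * F t d w a * F t a u c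
        = sp w (fun x e y => sp y (A1 x e)) + sp w (fun x e y => sp u (A2 x e y)) + sp w A3 := by
      rw [F_rec h0 h1, F_rec h0 h1, ← sp_mul', ← sp_mul', ← sp_sub, ← sp_add, ← sp_add]
      refine sp_len fun x e y l => ?_
      by_cases h : a = e
      · subst h; simp [A1, A2, A3, hd, sp_zero]
      · have := ih _ (by omega) e y rfl (I_ne (Ne.symm h))
        simp only [A1, A2, A3, sp_mul, I_ne h, I_none]
        linear_combination (t ^ x.length * I d e * F t d x e) * this
    have e2 := Xa h0 h1 a _ d w u c rfl hd hc
    have e3 : sp w (fun x e y => (1 - I a e) * F t d x a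
          * (t ^ (y.length + 1) * EL t a y u c + F t a y none * F t none u c))
        = sp w (fun x e y => sp y (A1 x e)) + sp w A3
          + t ^ w.length * sp w (fun x e y => (1 - I a e) * F t d x a * EL t a y u c) := by
      rw [← sp_assoc, ← sp_mul, ← sp_add, ← sp_add]
      refine sp_len fun x e y l => ?_
      have r1 := F_rec h0 h1 d x a
      rw [sp_len (w := x) (g := fun x' e' y' => (1 - I a e) * (t ^ (y.length + 1) * EL t a y u c
          + F t a y none * F t none u c) * (t ^ x'.length * I d e' * I a e' * F t d x' e' * F t e' y' a))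
          fun x' e' y' l' => by ring, sp_mul, ← r1, l]
      simp only [A3]; ring
    have e4 : sp u (fun x e y => (1 - I a e) * t⁻¹ * (ER t d w x a - Ch t a d w none * F t none x a) * F t a y c)
        = sp w (fun x e y => sp u (A2 x e y))
          + t ^ w.length * sp u (fun x e y => (1 - I a e) * t ^ x.length * ER t d w x a * F t a y c) := by
      rw [sp_comm, ← sp_mul, ← sp_add]
      refine sp_len fun x e y l => ?_
      have r1 := Ch_rec t a d w none
      have r2 := ER_rec h0 h1 d w x a
      have r3 : t * t⁻¹ = 1 := mul_inv_cancel₀ h0.ne'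
      rw [sp_len (w := w) (g := fun x' e' y' => (1 - I a e) * t⁻¹ * F t a y c
          * (t ^ x'.length * I d e' * I a e' * F t d x' e' * ER t e' y' x a) - (1 - I a e) * t⁻¹ * F t a y c
          * F t none x a * (t ^ x'.length * I d e' * I a e' * F t d x' e' * Ch t a e' y' none))
          fun x' e' y' l' => by ring, sp_sub, sp_mul, sp_mul, ← sub_eq_iff_eq_add'.2 r1, ← sub_eq_iff_eq_add'.2 r2]
      simp only [J]
      linear_combination ((1 - I a e) * t ^ w.length * t ^ x.length * ER t d w x a * F t a y c) * r3
    rw [e3, e4]
    linear_combination e1 + t ^ w.length * e2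

variable (t) in
noncomputable def S1 (g : Option C) (y : List C) (φ : C → List C → List C → C → ℝ) : ℝ :=
  sp y (fun u c w => I g c * φ c w u c)

variable (t) in
noncomputable def S2 (g : Option C) (y : List C) (φ : C → List C → List C → C → ℝ) : ℝ :=
  sp y (fun u c r => sp r (fun v d w => I g c * I g d * Ch t g c v d * φ d w u c))

variable (t) in
noncomputable def A (g : Option C) (x : List C) : ℝ :=
  S2 t g x (fun d w u c => I d c * t ^ (w ++ u).length * F t d (w ++ u) c)

omit h0 h1 in
lemma RL (g : Option C) (y : List C) (ψ φ : C → List C → List C → C → ℝ)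
    (h : ∀ d w u c, φ d w u c = sp w (fun x e z => I g e * I d e * t ^ x.length * F t d x e * ψ e z u c)) :
    S1 g y φ + S2 t g y φ = S2 t g y ψ := by
  rw [S1, S2, S2, ← sp_add]
  refine sp_len fun u c r _ => ?_
  simp only [h, ← sp_mul]
  rw [← sp_assoc, ← sp_add]
  refine sp_len fun v e z _ => ?_
  rw [ChR g e _ c v rfl, mul_add, add_mul, ← sp_mul, ← sp_mul']
  congr 1
  · simp only [J]; ring
  · exact sp_len fun _ _ _ _ => by simp only [J]; ring

omit h0 h1 in
lemma RR (g : Option C) (y : List C) (ψ φ : C → List C → List C → C → ℝ)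
    (h : ∀ d w u c, φ d w u c = sp u (fun x e z => I g e * I c e * t ^ z.length * F t e z c * ψ d w x e)) :
    S1 g y φ + S2 t g y φ = S2 t g y ψ := by
  rw [S1, S2, S2]
  simp only [h, ← sp_mul]
  rw [sp_len (g := fun u c r => sp u (fun x e z => sp r (fun v d w => I g c * I g d * Ch t g c v d
    * (I g e * I c e * t ^ z.length * F t e z c * ψ d w x e)))) fun u c r _ => sp_comm _ _ _, sp_assoc, sp_assoc,
    ← sp_add]
  refine sp_len fun x e r _ => ?_
  rw [← sp_assoc, ← sp_add]
  refine sp_len fun v d w _ => ?_
  rw [Ch_rec t g e v d, mul_add, add_mul, ← sp_mul, ← sp_mul']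
  congr 1
  · simp only [J, I_symm d e]; ring
  · exact sp_len fun _ c _ _ => by rw [I_symm c e]; ring

omit h0 h1 in
lemma A_cons (g : Option C) (a : C) (y : List C) : A t g (a :: y) = I g a * Ch t g a y a
    + S2 t g y (fun d w u c => I d c * t ^ (w.length + u.length + 1) * F t d (w ++ a :: u) c) := by
  rw [A, S2, S2, sp, ChR g a _ a y rfl, mul_add, ← sp_mul]
  simp only [J, I_self, zero_mul, mul_zero, zero_add, List.append_nil, List.length_append, List.length_cons]
  congr 1
  exact sp_len fun _ _ _ _ => by ring

omit h0 h1 in
lemma A_rot (g : Option C) (a : C) (y : List C) : A t g (y ++ [a]) = A t g (a :: y) := by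
  rw [A_cons, A, S2, S2, sp_mid, Ch_rec, mul_add, ← sp_mul]
  simp only [J, I_self, zero_mul, mul_zero, zero_add, sp_nil, add_zero, sp_mid, sp_add, List.append_assoc,
    List.length_append, List.length_cons, List.nil_append, List.cons_append, List.length_nil]
  rw [add_comm]
  congr 1
  · exact sp_len fun _ _ _ _ => by ring
  · exact sp_len fun _ _ _ _ => sp_len fun _ _ _ _ => by ring

lemma A_nonneg (g : Option C) (x : List C) : 0 ≤ A t g x :=
  sp_nonneg fun u c r _ => sp_nonneg fun v d w _ => by
    have := I_nonneg g c
    have := I_nonneg g d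
    have := I_nonneg d c
    have := Ch_nonneg h0 h1 _ g d c v rfl
    have := F_nonneg h0 h1 _ d (w ++ u) c rfl
    positivity

lemma Ch_hd (g b : Option C) (a : C) (v : List C) : Ch t g a (a :: v) b = 0 := by
  rw [Ch_rec, F_hd h0 h1 _ a v b rfl, sp, sp_zero fun x e y _ => by rw [F_hd h0 h1 _ a x e rfl]; simp]
  simp

lemma A_zero (g : Option C) (a : C) (y : List C) : A t g (a :: a :: y) = 0 := by
  rw [A_cons, Ch_hd h0 h1, S2, sp, sp_zero fun v d w _ => by rw [F_last h0 h1 _ a w d rfl]; simp,
    sp_zero fun u c r _ => sp_zero fun v d w _ => by rw [F_mid h0 h1 _ a w u d c rfl]; simp]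
  simp

lemma A_map (σ : Equiv.Perm C) (g : Option C) (x : List C) : A t (g.map σ) (x.map σ) = A t g x := by
  rw [A, A, S2, S2, sp_map]
  refine sp_len fun u c r _ => ?_
  rw [sp_map]
  refine sp_len fun v d w _ => ?_
  have e1 := Ch_map h0 h1 σ _ g d c v rfl
  have e2 := F_map h0 h1 σ _ d (w ++ u) c rfl
  have e3 := I_map h0 h1 σ d c
  simp only [Option.map_some] at e1 e2 e3
  rw [← List.map_append, e1, e2, e3, I_map h0 h1, I_map h0 h1, List.length_map]

variable [Fintype C] (hq : (Fintype.card C : ℝ) = 2 + t + t⁻¹)
include hq

lemma Xdec (g : Option C) (d : C) (w u : List C) (c : C) (hd : I g d = 1) (hc : I g c = 1) :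
    ∑ a, I g a * I d a * I c a * (t ^ w.length * F t d w a * (t ^ u.length * F t a u c))
      = (t + t⁻¹ + O g) * (t ^ w.length * F t d w none * (t ^ u.length * F t none u c))
        - I d c * (t ^ w.length * Ch t c d w none * (t ^ u.length * F t none u c))
        - sp w (fun x e z => I g e * I d e * t ^ x.length * F t d x e * (t * (I c e * (t ^ (z.length + u.length + 1)
          * t ^ z.length * EL t e z u c) + t ^ z.length * F t e z none * (t ^ u.length * F t none u c))))
        - sp u (fun x e z => I g e * I c e * t ^ z.length * F t e z c * (I d e * (t ^ (w.length + x.length)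
          * ER t d w x e - t ^ w.length * Ch t e d w none * (t ^ x.length * F t none x e)))) := by
  have r3 : t * t⁻¹ = 1 := mul_inv_cancel₀ h0.ne'
  have s0 : ∑ a, I g a * I d a * I c a = t + t⁻¹ + O g - I d c := by
    have := sII hq g d hd
    rw [sI, this, hc]; simp only [O]; ring
  have s1 : ∀ a, I g a * I d a * I c a * (t ^ w.length * F t d w a * (t ^ u.length * F t a u c))
      = I g a * I d a * I c a * (t ^ w.length * F t d w none * (t ^ u.length * F t none u c))
        - sp w (fun x e z => I g a * I d a * I c a * t ^ w.length * t ^ u.length * F t d x a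
          * (t ^ (z.length + 1) * EL t a z u c + F t a z none * F t none u c) * (1 - I a e))
        - sp u (fun x e z => I g a * I d a * I c a * t ^ w.length * t ^ u.length * t⁻¹
          * (ER t d w x a - Ch t a d w none * F t none x a) * F t a z c * (1 - I a e)) := by
    intro a
    rcases I_cases d a with h | h
    · simp [h, sp_zero]
    rcases I_cases c a with h' | h'
    · simp [h', sp_zero]
    have := X2 h0 h1 a u c h' _ d w rfl h
    rw [h, h', sp_len (w := w) (g := fun x e z => I g a * t ^ w.length * t ^ u.length * ((1 - I a e) * F t d x a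
        * (t ^ (z.length + 1) * EL t a z u c + F t a z none * F t none u c))) fun _ _ _ _ => by ring,
      sp_len (w := u) (g := fun x e z => I g a * t ^ w.length * t ^ u.length * ((1 - I a e) * t⁻¹
        * (ER t d w x a - Ch t a d w none * F t none x a) * F t a z c)) fun _ _ _ _ => by ring, sp_mul, sp_mul]
    linear_combination (-(I g a * t ^ w.length * t ^ u.length)) * this
  have s2 : I d c * (t ^ w.length * F t d w none * (t ^ u.length * F t none u c))
      = I d c * (t ^ w.length * Ch t c d w none * (t ^ u.length * F t none u c))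
        + sp w (fun x e z => I d c * t ^ w.length * t ^ u.length * F t none u c
          * ((1 - I c e) * F t d x c * F t c z none)) := by
    rcases I_cases d c with h | h
    · simp [h, sp_zero]
    rw [sp_mul, ← Ch2 h0 h1 c _ d w rfl h]; ring
  have s3 : sp w (fun x e z => I g e * I d e * t ^ x.length * F t d x e * (t * (I c e * (t ^ (z.length + u.length + 1)
        * t ^ z.length * EL t e z u c) + t ^ z.length * F t e z none * (t ^ u.length * F t none u c))))
      = sp w (fun x e z => I g e * I d e * I c e * t ^ w.length * t ^ u.length * F t d x e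
          * (t ^ (z.length + 1) * EL t e z u c + F t e z none * F t none u c))
        + sp w (fun x e z => I d c * t ^ w.length * t ^ u.length * F t none u c
          * ((1 - I c e) * F t d x c * F t c z none)) := by
    rw [← sp_add]
    refine sp_len fun x e z l => ?_
    by_cases h : c = e
    · subst h; rw [l, hc, I_self]; ring
    · rw [l, I_ne h]; ring
  have s4 : sp u (fun x e z => I g e * I c e * t ^ z.length * F t e z c * (I d e * (t ^ (w.length + x.length)
        * ER t d w x e - t ^ w.length * Ch t e d w none * (t ^ x.length * F t none x e))))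
      = sp u (fun x e z => I g e * I d e * I c e * t ^ w.length * t ^ u.length * t⁻¹
          * (ER t d w x e - Ch t e d w none * F t none x e) * F t e z c) :=
    sp_len fun x e z l => by rw [l]; field_simp; ring
  simp only [s1, Finset.sum_sub_distrib, sp_sum, ← Finset.sum_mul (f := fun a => I g a * I d a * I c a), s0, sD]
  rw [s3, s4]
  linear_combination -s2

lemma Ig (g : Option C) (y : List C) : ∑ a, A t g (a :: y)
    = (t⁻¹ + O g) * (Ch t g none y none - t ^ y.length * F t none y none)
      + t ^ y.length * sp y (fun u c w => I g c * F t none u c * F t c w none) := by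
  let X : C → List C → List C → C → ℝ := fun d w u c =>
    ∑ a, I g a * I d a * I c a * (t ^ w.length * F t d w a * (t ^ u.length * F t a u c))
  let P : C → List C → List C → C → ℝ := fun d w u c => t ^ w.length * F t d w none * (t ^ u.length * F t none u c)
  let Y : C → List C → List C → C → ℝ := fun d w u c =>
    I d c * (t ^ w.length * Ch t c d w none * (t ^ u.length * F t none u c))
  let ψ1 : C → List C → List C → C → ℝ := fun e z u c => t * (I c e * (t ^ (z.length + u.length + 1)
    * t ^ z.length * EL t e z u c) + t ^ z.length * F t e z none * (t ^ u.length * F t none u c))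
  let ψ2 : C → List C → List C → C → ℝ := fun d w x e => I d e * (t ^ (w.length + x.length)
    * ER t d w x e - t ^ w.length * Ch t e d w none * (t ^ x.length * F t none x e))
  let φ1 : C → List C → List C → C → ℝ := fun d w u c =>
    sp w (fun x e z => I g e * I d e * t ^ x.length * F t d x e * ψ1 e z u c)
  let φ2 : C → List C → List C → C → ℝ := fun d w u c =>
    sp u (fun x e z => I g e * I c e * t ^ z.length * F t e z c * ψ2 d w x e)
  have k0 : ∑ a, I g a * Ch t g a y a = S1 g y X + S2 t g y X := by
    simp only [S1, S2, X, Finset.mul_sum, ← sp_sum, ← Finset.sum_add_distrib]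
    refine Finset.sum_congr rfl fun a _ => ?_
    rw [Ch_rec, mul_add, ← sp_mul, ← sp_add]
    simp only [J, I_self, zero_mul, mul_zero, zero_add]
    refine sp_len fun u c r _ => ?_
    rw [ChR g a _ c r rfl, mul_add, mul_add, ← sp_mul, ← sp_mul]
    congr 1
    · simp only [J, I_symm a c]
      rcases I_cases c a with h | h <;> simp only [h] <;> ring
    · exact sp_len fun _ _ _ _ => by simp only [J, I_symm a c]; ring
  have k1 : S1 g y X = (t + t⁻¹ + O g) * S1 g y P - S1 g y φ1 - S1 g y φ2 := by
    simp only [S1, ← sp_mul, ← sp_sub]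
    refine sp_len fun u c w _ => ?_
    rcases I_cases g c with h | h
    · simp [h]
    simp only [X, Xdec h0 h1 hq g c w u c h h, I_self, P, φ1, φ2, ψ1, ψ2]; ring
  have k2 : S2 t g y X = (t + t⁻¹ + O g) * S2 t g y P - S2 t g y Y - S2 t g y φ1 - S2 t g y φ2 := by
    simp only [S2, ← sp_mul, ← sp_sub]
    refine sp_len fun u c r _ => sp_len fun v d w _ => ?_
    rcases I_cases g c with h | h
    · simp [h]
    rcases I_cases g d with h' | h'
    · simp [h']
    simp only [X, Xdec h0 h1 hq g d w u c h' h, P, Y, φ1, φ2, ψ1, ψ2]; ring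
  have k3 : ∑ a, S2 t g y (fun d w u c => I d c * t ^ (w.length + u.length + 1) * F t d (w ++ a :: u) c)
      = S2 t g y ψ1 + S2 t g y ψ2 + S2 t g y Y - t * S2 t g y P := by
    simp only [S2, ← sp_mul, ← sp_sub, ← sp_add, sp_sum]
    refine sp_len fun u c r _ => sp_len fun v d w _ => ?_
    simp only [← Finset.mul_sum, ψ1, ψ2, Y, P, I_symm c d]
    rcases I_cases d c with h | h
    · simp only [h]; ring
    rw [Hh h0 h1 hq _ d w u c rfl h, h]
    simp only [O]; field_simp; ring
  have k4 : S1 g y P + S2 t g y P = Ch t g none y none - t ^ y.length * F t none y none := by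
    rw [Ch_rec, S1, S2, ← sp_add]
    simp only [J, one_mul, add_sub_cancel_left]
    refine sp_len fun u c r _ => ?_
    rw [ChR g none _ c r rfl, mul_add, ← sp_mul]
    congr 1
    · simp only [J, P, I_none]; ring
    · exact sp_len fun _ _ _ _ => by simp only [J, P, I_none]; ring
  have k5 : t * S1 g y P = t ^ y.length * sp y (fun u c w => I g c * F t none u c * F t c w none) := by
    simp only [S1, ← sp_mul]
    exact sp_len fun u c w l => by simp only [P, l]; ring
  simp only [A_cons, Finset.sum_add_distrib]
  rw [k0, k1, k2, k3, ← RL g y ψ1 φ1 fun _ _ _ _ => rfl, ← RR g y ψ2 φ2 fun _ _ _ _ => rfl, ← k4, ← k5]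
  ring

variable (t) in
noncomputable def τ (n : ℕ) (x : List C) : ℝ :=
  (1 - (1 + t + t⁻¹) * t ^ n) * A t none x + t ^ n * ∑ g : C, A t g x

theorem marg (y : List C) : ∑ a, τ t (y.length + 1) (a :: y) = (1 - t ^ y.length)
    * ((1 - (1 + t + t⁻¹) * t ^ (y.length + 1)) * (1 + t⁻¹) + (2 + t + t⁻¹) * t ^ y.length) * F t none y none := by
  have r3 : t * t⁻¹ = 1 := mul_inv_cancel₀ h0.ne'
  have e1 : ∑ g : C, (F t none y none - Ch t g none y none) = sp y (fun u c w => F t none u c * F t c w none) := by
    simp only [fun g : C => Ch2 h0 h1 g _ none y rfl rfl, sp_sum]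
    refine sp_len fun u c w _ => ?_
    exact (Finset.sum_congr rfl fun _ _ => by ring).trans (sD (fun g : C => F t none u g * F t g w none) c)
  have e2 : ∑ g : C, sp y (fun u c w => I g c * F t none u c * F t c w none)
      = (1 + t + t⁻¹) * sp y (fun u c w => F t none u c * F t c w none) := by
    rw [sp_sum, ← sp_mul]
    refine sp_len fun u c w _ => ?_
    have := sII hq none c rfl
    simp only [I_none, one_mul, O] at this
    simp only [I_symm _ c, ← Finset.sum_mul, this]; ring
  simp only [τ, Finset.sum_add_distrib, ← Finset.mul_sum]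
  rw [Finset.sum_comm]
  simp only [Ig h0 h1 hq, Finset.sum_add_distrib, ← Finset.mul_sum, e2, Finset.sum_sub_distrib, I_none, one_mul, O,
    Ch1 h0 h1 _ none y rfl, Finset.sum_const, Finset.card_univ, nsmul_eq_mul, hq] at e1 ⊢
  rw [← e1]
  field_simp
  ring

end Pool.Agent.H.MP_240aa8_pr
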