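import Pool.Agent.H.MP_341645_pr.G

set_option autoImplicit false

namespace Pool.Agent.H.MP_240aa8_pr

open MeasureTheory ProbabilityTheory Pool.Agent.H.MP_341645_pr
open scoped ENNReal

variable {q : ℕ}

lemma sum_sw (n : ℕ) (f : List (Fin q) → ℝ) : ∑ x : Fin n → Fin q, f (List.ofFn x) = sw n f := by
  induction n generalizing f with
  | zero => simp [sw]
  | succ n ih =>
    rw [← (Fin.consEquiv fun _ => Fin q).sum_comp, Fintype.sum_prod_type, sw]
    refine Finset.sum_congr rfl fun c _ => ?_
    rw [← ih]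
    simp [Fin.consEquiv, List.ofFn_succ]

lemma Cy_ofFn (m : ℕ) (a : ℤ) (y : Fin m → Fin q) (w : ℤ → Fin q) :
    w ∈ Cy a (List.ofFn y) ↔ ∀ i : Fin m, w (a + i) = y i := by
  induction m generalizing a with
  | zero => simp [Cy]
  | succ m ih =>
    rw [List.ofFn_succ, Cy, Set.mem_inter_iff, ih, Fin.forall_fin_succ]
    simp [add_assoc, add_comm (1 : ℤ)]

lemma dist_le {n : ℕ} (a d : Fin (n + 3)) : (SimpleGraph.cycleGraph (n + 3)).dist a (a + d) ≤ d := by
  induction d using Fin.induction with
  | zero => simp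
  | succ d ih =>
    have h : (SimpleGraph.cycleGraph (n + 3)).Adj (a + d.castSucc) (a + d.succ) := by
      rw [SimpleGraph.cycleGraph_adj, ← Fin.coeSucc_eq_succ]; right; abel
    have hc : (SimpleGraph.cycleGraph (n + 3)).Connected := SimpleGraph.cycleGraph_connected
    have := hc.dist_triangle (u := a) (v := a + d.castSucc) (w := a + d.succ)
    rw [SimpleGraph.dist_eq_one_iff_adj.2 h] at this
    simp at ih ⊢; omega

lemma rot {n : ℕ} {τ : List (Fin q) → ℝ} (h : ∀ a y, τ (y ++ [a]) = τ (a :: y)) (s : Fin (n + 1))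
    (x : Fin (n + 1) → Fin q) : τ (List.ofFn fun i => x (i + s)) = τ (List.ofFn x) := by
  induction s using Fin.induction with
  | zero => simp
  | succ s ih =>
    rw [← ih, List.ofFn_succ' , List.ofFn_succ (f := fun i => x (i + s.castSucc)), List.concat_eq_append, h,
      ← Fin.coeSucc_eq_succ]
    congr 2
    · rw [add_comm s.castSucc, ← add_assoc, Fin.last_add_one]
    · congr 1; funext i; rw [← Fin.coeSucc_eq_succ]; congr 1; abel

theorem cyc [NeZero q] (k n : ℕ) (h3 : 3 ≤ n) (hk : k ≤ n) {W τ : List (Fin q) → ℝ} (hn : ∀ w, 0 ≤ W w)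
    (h0 : W [] = 1) (hL : ∀ w, ∑ c, W (c :: w) = W w) (hR : ∀ w, ∑ c, W (w ++ [c]) = W w)
    (hP : ∀ c, W [c, c] = 0) (hI : ∀ x y, sw k (fun w => W (x ++ (w ++ y))) = W x * W y)
    (t0 : ∀ x, 0 ≤ τ x) (tr : ∀ a y, τ (y ++ [a]) = τ (a :: y)) (tz : ∀ a y, τ (a :: a :: y) = 0)
    (tm : ∀ (σ : Equiv.Perm (Fin q)) x, τ (x.map σ) = τ x)
    (tW : ∀ y, y.length + k = n → sw k (fun w => τ (w ++ y)) = W y) (k' : ℕ) (hk' : k ≤ k') :
    ∃ μ : Measure (Fin n → Fin q), IsProbabilityMeasure μ ∧
      (∀ᵐ x ∂μ, ∀ i j : Fin n, (SimpleGraph.cycleGraph n).Adj i j → x i ≠ x j) ∧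
      (∀ σ : Equiv.Perm (Fin q), μ.map (fun x : Fin n → Fin q => σ ∘ x) = μ) ∧
      (∀ A B : Set (Fin n), (∀ a ∈ A, ∀ b ∈ B, k' < (SimpleGraph.cycleGraph n).dist a b) →
        IndepFun (fun x : Fin n → Fin q => fun a : A => x a) (fun x : Fin n → Fin q => fun b : B => x b) μ) := by
  obtain ⟨ν, hν, -, -, νI, νW⟩ := exists_col_real k hn h0 hL hR hP hI
  obtain ⟨n, rfl⟩ : ∃ m, n = m + 3 := ⟨n - 3, by omega⟩
  obtain ⟨m, hm⟩ : ∃ m, m + k = n + 3 := ⟨n + 3 - k, by omega⟩
  let μ : Measure (Fin (n + 3) → Fin q) := Measure.count.withDensity fun x => ENNReal.ofReal (τ (List.ofFn x))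
  have μ1 : ∀ x, μ {x} = ENNReal.ofReal (τ (List.ofFn x)) := fun x => by
    simp [μ, withDensity_apply _ (measurableSet_singleton x)]
  have μe : ∀ e : (Fin (n + 3) → Fin q) ≃ (Fin (n + 3) → Fin q), (∀ x, τ (List.ofFn (e x)) = τ (List.ofFn x)) →
      μ.map e = μ := fun e he => Measure.ext_of_singleton fun y => by
    rw [Measure.map_apply (measurable_of_finite _) (measurableSet_singleton y), ← Equiv.image_symm_eq_preimage,
      Set.image_singleton, μ1, μ1, ← he, Equiv.apply_symm_apply]
  let p : (Fin (n + 3) → Fin q) → Fin m → Fin q := fun x i => x ⟨k + i, by omega⟩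
  let p' : (ℤ → Fin q) → Fin m → Fin q := fun w i => w i
  have mp' : Measurable p' := by fun_prop
  have key : μ.map p = ν.map p' := Measure.ext_of_singleton fun y => by
    have e1 : p' ⁻¹' {y} = Cy 0 (List.ofFn y) := by
      ext w; simp [Cy_ofFn, p', funext_iff]
    have e2 : ∀ x, p x = y ↔ List.ofFn y = (List.ofFn x).drop k := fun x => by
      rw [← List.ofFn_inj, eq_comm, show List.ofFn (p x) = (List.ofFn x).drop k from
        List.ext_getElem (by simp; omega) fun i _ _ => by simp only [List.getElem_ofFn, List.getElem_drop, p]]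
    rw [Measure.map_apply (measurable_of_finite _) (measurableSet_singleton y),
      Measure.map_apply mp' (measurableSet_singleton y), e1, νW, ← tW _ (by simpa using hm),
      withDensity_apply _ (Set.toFinite _).measurableSet, ← lintegral_indicator (Set.toFinite _).measurableSet,
      lintegral_count, tsum_fintype]
    have := sum_sw (n + 3) fun l => if List.ofFn y = l.drop k then τ l else 0
    rw [← hm, sw_add] at this
    rw [sw_congr (g := fun u => sw m fun w => if List.ofFn y = (u ++ w).drop k then τ (u ++ w) else 0)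
      fun u hu => by
        have := sw_single (List.ofFn y) fun w => τ (u ++ w)
        rw [List.length_ofFn] at this
        simp only [← hu, List.drop_left, this], ← this, hm,
      ENNReal.ofReal_sum_of_nonneg fun x _ => by split_ifs; exacts [t0 _, le_rfl]]
    refine Finset.sum_congr rfl fun x _ => ?_
    simp only [Set.indicator, Set.mem_preimage, Set.mem_singleton_iff, e2]
    split_ifs <;> simp
  have hp : IsProbabilityMeasure μ := ⟨by
    have := congrArg (fun m => m Set.univ) key
    simpa [Measure.map_apply (measurable_of_finite p), Measure.map_apply mp'] using this⟩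
  refine ⟨μ, hp, ?_, fun σ => μe (Equiv.arrowCongr (Equiv.refl _) σ) fun x => ?_, fun A B hAB => ?_⟩
  · rw [ae_withDensity_iff (measurable_of_finite _)]
    refine .of_forall fun x hx => ?_
    have : ∀ i, x i ≠ x (i + 1) := fun i e => hx (by
      rw [← rot tr i x, List.ofFn_succ, List.ofFn_succ]
      simp only [zero_add, Fin.succ_zero_eq_one, add_comm 1 i, ← e, tz, ENNReal.ofReal_zero])
    intro i j h
    rcases SimpleGraph.cycleGraph_adj.1 h with h | h
    · rw [sub_eq_iff_eq_add'.1 h]; exact (this j).symm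
    · rw [sub_eq_iff_eq_add'.1 h]; exact this i
  · rw [← tm σ (List.ofFn x), List.map_ofFn]; rfl
  rcases A.eq_empty_or_nonempty with rfl | hA
  · rw [show (fun x : Fin (n + 3) → Fin q => fun a : (∅ : Set (Fin (n + 3))) => x a) = fun _ a => a.2.elim from
      funext fun _ => funext fun a => a.2.elim]
    exact indepFun_const_left _ _
  rcases B.eq_empty_or_nonempty with rfl | hB
  · rw [show (fun x : Fin (n + 3) → Fin q => fun a : (∅ : Set (Fin (n + 3))) => x a) = fun _ a => a.2.elim from
      funext fun _ => funext fun a => a.2.elim]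
    exact indepFun_const_right _ _
  obtain ⟨⟨a, b⟩, ⟨ha, hb⟩, hmin⟩ := Set.exists_min_image (A ×ˢ B) (fun z => (z.2 - z.1).val) (Set.toFinite _)
    (hA.prod hB)
  have hab : k < (b - a).val := by
    have := dist_le a (b - a)
    have := hAB a ha b hb
    simp at *; omega
  have gap : ∀ u, u ∈ A ∨ u ∈ B → k ≤ (u - (a + 1)).val := by
    intro u hu
    by_contra hlt
    have e1 : (u - a).val = (u - (a + 1)).val + 1 := by
      rw [show u - a = u - (a + 1) + 1 by abel, Fin.val_add_one_of_lt (Fin.lt_def.2 (by simp; omega))]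
    rcases hu with hu | hu
    · have := hmin (u, b) ⟨hu, hb⟩
      simp only at this
      rw [show b - u = b - a - (u - a) by abel, Fin.sub_val_of_le (a := b - a) (b := u - a)
        (Fin.le_def.2 (by omega))] at this
      omega
    · have := dist_le a (u - a)
      have := hAB a ha u hu
      simp at *; omega
  let e : (Fin (n + 3) → Fin q) ≃ (Fin (n + 3) → Fin q) := Equiv.arrowCongr (Equiv.subRight (a + 1)) (Equiv.refl _)
  have k2 : μ.map (p ∘ e) = ν.map p' := by
    rw [← Measure.map_map (measurable_of_finite _) (measurable_of_finite _), μe e fun x => by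
      rw [← rot tr (a + 1) x]; congr 2, key]
  let ix : Fin (n + 3) → ℤ := fun u => ((u - (a + 1)).val - k : ℕ)
  have hd : ∀ u v : Fin (n + 3), (u - (a + 1)).val ≤ (v - (a + 1)).val →
      (SimpleGraph.cycleGraph (n + 3)).dist u v ≤ (v - (a + 1)).val - (u - (a + 1)).val := fun u v h => by
    have := dist_le u (v - (a + 1) - (u - (a + 1)))
    rwa [Fin.sub_val_of_le h, show u + (v - (a + 1) - (u - (a + 1))) = v by abel] at this
  have I1 := (νI (ix '' A) (ix '' B) (by
    rintro _ ⟨u, hu, rfl⟩ _ ⟨v, hv, rfl⟩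
    have := hAB u hu v hv
    have := gap u (.inl hu)
    have := gap v (.inr hv)
    have := hd u v
    have := hd v u
    rw [SimpleGraph.dist_comm] at this
    simp only [ix, lt_abs]; omega)).comp (φ := fun f (u : A) => f ⟨ix u, u, u.2, rfl⟩)
      (ψ := fun f (u : B) => f ⟨ix u, u, u.2, rfl⟩) (by fun_prop) (by fun_prop)
  let fA : (Fin m → Fin q) → A → Fin q := fun y u => y ⟨(u.1 - (a + 1)).val - k, by have := gap u (.inl u.2); omega⟩
  let fB : (Fin m → Fin q) → B → Fin q := fun y u => y ⟨(u.1 - (a + 1)).val - k, by have := gap u (.inr u.2); omega⟩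
  have I2 : IndepFun (fA ∘ p') (fB ∘ p') ν := I1
  have k3 : ∀ E, μ ((p ∘ e) ⁻¹' E) = ν (p' ⁻¹' E) := fun E => by
    rw [← Measure.map_apply (measurable_of_finite _) (Set.toFinite _).measurableSet, k2,
      Measure.map_apply mp' (Set.toFinite _).measurableSet]
  have eA : (fun x : Fin (n + 3) → Fin q => fun a : A => x a) = fA ∘ (p ∘ e) := by
    funext x u
    have := gap u (.inl u.2)
    simp [fA, p, e, Nat.add_sub_cancel' this]
  have eB : (fun x : Fin (n + 3) → Fin q => fun a : B => x a) = fB ∘ (p ∘ e) := by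
    funext x u
    have := gap u (.inr u.2)
    simp [fB, p, e, Nat.add_sub_cancel' this]
  rw [indepFun_iff_measure_inter_preimage_eq_mul] at I2 ⊢
  intro s t hs ht
  rw [eA, eB, Set.preimage_comp (g := fA), Set.preimage_comp (g := fB), ← Set.preimage_inter, k3, k3, k3]
  exact I2 s t hs ht

end Pool.Agent.H.MP_240aa8_pr
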